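import Mathlib
import Pool.Agent.H870R3.TMUniv
import Pool.Agent.W754.NB.Comp
import Pool.Agent.W754.NB.Complete

set_option autoImplicit false

open Set Turing

namespace Pool.Agent.Results.MP_9ae58c_an.ThreeBody

open Pool.Agent.H870R3 Pool.Agent.W754.NB

/-- Initial configurations of the machine `U` (the finite words to the left and to the right of the
head). -/
abbrev Inp (U : TM) : Type := List (Fin (U.k + 1)) × List (Fin (U.k + 1))

/-- The `n`-body flow with the masses `m` is Turing complete: there are a universal Turing machine
`U`, a computable map `p` from the initial configurations of `U` to collision-free points of the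
phase space with rational coordinates and a computable open set `V` (the same one for all
configurations) such that `U` halts on `c` if and only if the positive trajectory of `p c` meets
`V`. -/
def TuringComplete {n : ℕ} (m : Fin n → ℝ) : Prop :=
  ∃ U : TM, U.IsUniversal ∧ ∃ (p : Inp U → List Name) (V : Set (Phase n)),
    Computable p ∧ ComputableOpen V ∧
    (∀ c i j, i ≠ j → (point n (p c)).1 i ≠ (point n (p c)).1 j) ∧
    ∀ c, U.Halts (U.init c) ↔ OrbitMeets m (point n (p c)) V

/-- has `U` reached the halting state at time `t` when started in the configuration number `k`? -/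
def hal (U : TM) (k t : ℕ) : Bool :=
  ((Encodable.decode (α := Inp U) k).map
    (fun c => hb (U.code, (0, c.1.map Fin.val, c.2.map Fin.val)) t)).getD false

lemma primrec_val (n : ℕ) : Primrec (fun l : List (Fin n) => l.map Fin.val) :=
  Primrec.list_map Primrec.id (Primrec.fin_val.comp Primrec.snd)

lemma hal_computable (U : TM) : Computable₂ (hal U) := by
  refine Primrec.to_comp ?_
  unfold hal
  refine Primrec.option_getD.comp (Primrec.option_map (Primrec.decode.comp Primrec.fst) ?_)
    (Primrec.const false)
  refine primrec_hb.comp (Primrec.pair (Primrec.const _) (Primrec.pair (Primrec.const 0)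
    (Primrec.pair ?_ ?_))) (Primrec.snd.comp Primrec.fst)
  · exact (primrec_val _).comp (Primrec.fst.comp Primrec.snd)
  · exact (primrec_val _).comp (Primrec.snd.comp Primrec.snd)

lemma hal_encode (U : TM) (c : Inp U) (t : ℕ) :
    hal U (Encodable.encode c) t = hb (U.code, (0, c.1.map Fin.val, c.2.map Fin.val)) t := by
  simp [hal]

lemma hal_iff (U : TM) (c : Inp U) :
    U.Halts (U.init c) ↔ ∃ t, hal U (Encodable.encode c) t = true := by
  unfold TM.init
  rw [halts_iff]
  refine exists_congr fun t => ?_
  rw [hal_encode]
  simp [hb]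

/-- the digits of the mass of the middle body -/
def dig (U : TM) (i : ℕ) : Bool := hal U i.unpair.1 i.unpair.2

lemma dig_computable (U : TM) : Computable (dig U) :=
  (hal_computable U).comp (Primrec.fst.comp Primrec.unpair).to_comp
    (Primrec.snd.comp Primrec.unpair).to_comp

lemma meets_iff (h : ℕ → Bool) (c : ℕ) :
    (∃ t, h (Nat.pair c t) = true) ↔
      OrbitMeets ![1, 1 + enc4 h, 1] (point 3 (start c)) target := by
  constructor
  · rintro ⟨t, ht⟩
    obtain ⟨s, a, hc, q, v, T, hT, hsol, h0, hV⟩ := complete h c t ht
    refine ⟨q, v, T, hT, hsol, h0, ?_⟩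
    refine mem_iUnion.2 ⟨Nat.pair (Nat.pair c t) (Nat.pair s a), ?_⟩
    unfold FB
    simp only [Nat.unpair_pair]
    rw [if_pos hc]
    exact hV
  · rintro ⟨q, v, T, hT, hsol, h0, hV⟩
    obtain ⟨j, hj⟩ := mem_iUnion.1 hV
    unfold FB at hj
    by_cases hc : Cond (4 ^ (j.unpair.1 + 1)) j.unpair.2.unpair.1 j.unpair.2.unpair.2
    · rw [if_pos hc] at hj
      have hp : Nat.pair j.unpair.1.unpair.1 j.unpair.1.unpair.2 = j.unpair.1 := Nat.pair_unpair _
      have := sound h c j.unpair.1.unpair.1 j.unpair.1.unpair.2 j.unpair.2.unpair.1
        j.unpair.2.unpair.2 (by rw [hp]; exact hc) (by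
          rw [hp]; exact ⟨q, v, T, hT, hsol, h0, hj⟩)
      exact ⟨j.unpair.1.unpair.2, by rw [this.1]; exact this.2⟩
    · rw [if_neg hc] at hj
      exact absurd hj (box_empty _)

/-- **There are masses for which the Newtonian three-body flow is Turing complete**: the masses
`1, μ, 1` for some computable real number `μ ∈ [1, 4/3]`. -/
theorem result : ∃ μ : ℝ, 1 ≤ μ ∧ μ ≤ 4 / 3 ∧ ComputableReal μ ∧ TuringComplete ![1, μ, 1] := by
  obtain ⟨U, hU⟩ := exists_universal
  have h1 : Computable (fun c : Inp U => start (Encodable.encode c)) :=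
    (primrec_start.comp Primrec.encode).to_comp
  have h2 : ∀ c : Inp U, U.Halts (U.init c) ↔
      OrbitMeets ![1, 1 + enc4 (dig U), 1] (point 3 (start (Encodable.encode c))) target := by
    intro c
    rw [hal_iff, ← meets_iff]
    refine exists_congr fun t => ?_
    unfold dig
    rw [Nat.unpair_pair]
  refine ⟨1 + enc4 (dig U), ?_, ?_, enc4_computableReal _ (dig_computable U), U, hU,
    fun c => start (Encodable.encode c), target, h1, target_open, fun c => start_noncoll _, h2⟩
  · have := enc4_nonneg (dig U); linarith
  · have := enc4_le (dig U); linarith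

end Pool.Agent.Results.MP_9ae58c_an.ThreeBody
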